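import Pool.Agent.NDR.StmtsG

/-!
Squad NDR (MP_b48657_ag), row BSF (helper19): basis for a facet.
-/

set_option autoImplicit false

open Finset

namespace Pool.Agent.NDR.H19

theorem bsf : BsfStmt := by
  classical
  intro ι _ _ I A T ψ hB hψ hne hfac
  obtain ⟨hTI, hspan, hind⟩ := hB
  have hC : ∀ i : ι, ∃ c : ι → ℚ, i ∈ I → ∀ a ∈ A, ((a i : ℤ) : ℚ) =
      ∑ j ∈ T, c j * ((a j : ℤ) : ℚ) := by
    intro i
    by_cases hi : i ∈ I
    · obtain ⟨c, hc⟩ := hspan i hi
      exact ⟨c, fun _ => hc⟩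
    · exact ⟨0, fun h => absurd h hi⟩
  choose C hC using hC
  set D : ι → ℚ := fun j => ∑ i, (ψ i : ℚ) * C i j with hD
  have hpr : ∀ a ∈ A, ((pr ψ a : ℤ) : ℚ) = ∑ j ∈ T, D j * ((a j : ℤ) : ℚ) := by
    intro a ha
    have h0 : pr ψ a = ∑ i, ψ i * a i := by
      unfold pr
      exact Finset.sum_congr rfl fun i _ => by rw [Int.cast_id]
    rw [h0, Int.cast_sum]
    have h1 : ∀ i ∈ (univ : Finset ι), ((ψ i * a i : ℤ) : ℚ) =
        ∑ j ∈ T, (ψ i : ℚ) * C i j * ((a j : ℤ) : ℚ) := by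
      intro i _
      by_cases hi : i ∈ I
      · rw [Int.cast_mul, hC i hi a ha, Finset.mul_sum]
        exact Finset.sum_congr rfl fun j _ => by ring
      · rw [hψ i hi]
        simp
    rw [Finset.sum_congr rfl h1, Finset.sum_comm]
    exact Finset.sum_congr rfl fun j _ => by rw [hD, Finset.sum_mul]
  obtain ⟨a₀, ha₀, hne₀⟩ := hne
  have hj : ∃ j₀ ∈ T, D j₀ ≠ 0 := by
    by_contra hcon
    push Not at hcon
    apply hne₀
    have h1 := hpr a₀ ha₀
    rw [Finset.sum_eq_zero fun j hj => by rw [hcon j hj, zero_mul]] at h1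
    exact_mod_cast h1
  obtain ⟨j₀, hj₀, hD₀⟩ := hj
  refine ⟨j₀, hj₀, (Finset.erase_subset _ _).trans hTI, ?_, ?_⟩
  · intro i hi
    refine ⟨fun j => C i j - C i j₀ * D j / D j₀, ?_⟩
    intro a ha
    rw [Finset.mem_filter] at ha
    have h1 := hpr a ha.1
    rw [ha.2, Int.cast_zero, ← Finset.add_sum_erase T _ hj₀] at h1
    have h2 := hC i hi a ha.1
    rw [← Finset.add_sum_erase T _ hj₀] at h2
    have h3 : ((a j₀ : ℤ) : ℚ) = - (∑ j ∈ T.erase j₀, D j * ((a j : ℤ) : ℚ)) / D j₀ := by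
      field_simp
      linarith
    rw [h2, h3]
    have h4 : ∑ j ∈ T.erase j₀, (C i j - C i j₀ * D j / D j₀) * ((a j : ℤ) : ℚ) =
        ∑ j ∈ T.erase j₀, C i j * ((a j : ℤ) : ℚ) -
        C i j₀ / D j₀ * ∑ j ∈ T.erase j₀, D j * ((a j : ℤ) : ℚ) := by
      rw [Finset.mul_sum, ← Finset.sum_sub_distrib]
      exact Finset.sum_congr rfl fun j _ => by ring
    rw [h4]
    ring
  · intro d hd
    set χ : ι → ℚ := fun i => if i ∈ T.erase j₀ then d i else 0 with hχ
    have hprχ : ∀ a : ι → ℤ, pr χ a = ∑ j ∈ T.erase j₀, d j * ((a j : ℤ) : ℚ) := by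
      intro a
      unfold pr
      rw [← Finset.sum_subset (Finset.subset_univ (T.erase j₀))]
      · exact Finset.sum_congr rfl fun j hj => by rw [hχ]; simp only [if_pos hj]
      · intro j _ hj
        rw [hχ]
        simp only [if_neg hj, zero_mul]
    obtain ⟨l, hl⟩ := hfac χ (by
      intro i hi
      rw [hχ]
      simp only
      rw [if_neg fun h => hi (hTI (Finset.mem_of_mem_erase h))]) (by
      intro a ha hz
      rw [hprχ]
      exact hd a (Finset.mem_filter.mpr ⟨ha, hz⟩))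
    have hz : ∀ a ∈ A, ∑ j ∈ T, (χ j - l * D j) * ((a j : ℤ) : ℚ) = 0 := by
      intro a ha
      have h1 := hl a ha
      rw [hpr a ha] at h1
      have h2 : pr χ a = ∑ j ∈ T, χ j * ((a j : ℤ) : ℚ) := by
        rw [hprχ, ← Finset.add_sum_erase T _ hj₀]
        have h3 : χ j₀ = 0 := by
          rw [hχ]
          simp
        rw [h3, zero_mul, zero_add]
        exact Finset.sum_congr rfl fun j hj => by rw [hχ]; simp only [if_pos hj]
      rw [h2] at h1
      have h4 : ∑ j ∈ T, (χ j - l * D j) * ((a j : ℤ) : ℚ) =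
          ∑ j ∈ T, χ j * ((a j : ℤ) : ℚ) - l * ∑ j ∈ T, D j * ((a j : ℤ) : ℚ) := by
        rw [Finset.mul_sum, ← Finset.sum_sub_distrib]
        exact Finset.sum_congr rfl fun j _ => by ring
      rw [h4, h1, sub_self]
    have hall := hind _ hz
    have h0 := hall j₀ hj₀
    have h3 : χ j₀ = 0 := by
      rw [hχ]
      simp
    rw [h3, zero_sub, neg_eq_zero] at h0
    have hl0 : l = 0 := (mul_eq_zero.mp h0).resolve_right hD₀
    intro j hj
    have h5 := hall j (Finset.mem_of_mem_erase hj)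
    rw [hl0, zero_mul, sub_zero, hχ] at h5
    simp only [if_pos hj] at h5
    exact h5

end Pool.Agent.NDR.H19
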