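import Pool.Agent.NDR.StmtsC

/-!
Squad NDR (MP_b48657_ag), row CNT (helper19): the faces of `f'` for weights in the coordinates `I` are
smooth in the torus.
-/

set_option autoImplicit false

open Finset Pool.Agent.Helper30_Simp

namespace Pool.Agent.NDR.H19

theorem smooth_map {k K : Type} [Field k] [Field K] [Algebra k K] {σ : Type} [Fintype σ]
    {g : MvPolynomial σ k} (hg : TorusSmooth g) :
    TorusSmooth (MvPolynomial.map (algebraMap k K) g) := by
  unfold TorusSmooth at hg ⊢
  rw [Ideal.mem_radical_iff] at hg ⊢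
  obtain ⟨n, hn⟩ := hg
  refine ⟨n, ?_⟩
  have hle : Ideal.span ({g} ∪ Set.range fun j => MvPolynomial.pderiv j g) ≤
      (Ideal.span ({MvPolynomial.map (algebraMap k K) g} ∪ Set.range fun j =>
        MvPolynomial.pderiv j (MvPolynomial.map (algebraMap k K) g))).comap
        (MvPolynomial.map (algebraMap k K)) := by
    rw [Ideal.span_le]
    rintro y (hy | ⟨j, rfl⟩)
    · rw [Set.mem_singleton_iff] at hy
      rw [hy]
      exact Ideal.subset_span (Or.inl rfl)
    · refine Ideal.subset_span (Or.inr ⟨j, ?_⟩)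
      exact MvPolynomial.pderiv_map
  have h1 := hle hn
  rw [Ideal.mem_comap, map_pow, map_prod] at h1
  simpa only [MvPolynomial.map_X] using h1

lemma coeff_prt {σ K : Type} [Field K] [DecidableEq σ] (f : MvPolynomial σ K) (S : Finset (σ →₀ ℕ))
    (β : σ →₀ ℕ) : MvPolynomial.coeff β (prt f S) = if β ∈ S then MvPolynomial.coeff β f else 0 := by
  classical
  unfold prt
  rw [MvPolynomial.coeff_sum]
  simp only [MvPolynomial.coeff_monomial]
  rw [Finset.sum_ite_eq']

lemma coeff_cfD {σ K : Type} [Field K] (δ : Derivation ℤ K K) (G : MvPolynomial σ K) (β : σ →₀ ℕ) :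
    MvPolynomial.coeff β (cfD δ G) = δ (MvPolynomial.coeff β G) := by
  classical
  unfold cfD
  rw [MvPolynomial.coeff_sum]
  simp only [MvPolynomial.coeff_monomial]
  rw [Finset.sum_ite_eq']
  split_ifs with h
  · rfl
  · rw [MvPolynomial.notMem_support_iff.mp h, map_zero]

lemma coeff_fpr {σ K : Type} [Field K] [Algebra ℂ K] [DecidableEq σ] (F : MvPolynomial σ ℂ)
    (I : Finset σ) (c : σ → K) (L : ℕ) (β : σ →₀ ℕ) :
    MvPolynomial.coeff β (fpr F I c L) = algebraMap ℂ K (MvPolynomial.coeff β F) +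
      ∑ i ∈ I, if Finsupp.single i L = β then c i else 0 := by
  classical
  unfold fpr
  rw [MvPolynomial.coeff_add, MvPolynomial.coeff_map, MvPolynomial.coeff_sum]
  congr 1
  refine Finset.sum_congr rfl fun i _ => ?_
  rw [MvPolynomial.coeff_C_mul, MvPolynomial.coeff_X_pow]
  split_ifs <;> simp

lemma mem_Mp {σ : Type} (M : Finset (σ →₀ ℕ)) (I : Finset σ) (L : ℕ) (α : σ →₀ ℕ) :
    α ∈ Mp M I L ↔ α ∈ M ∨ ∃ i ∈ I, Finsupp.single i L = α := by
  classical
  unfold Mp
  rw [Finset.mem_union, Finset.mem_image]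

lemma mem_fcn {σ : Type} [Fintype σ] (M : Finset (σ →₀ ℕ)) (u : σ → ℕ) (α : σ →₀ ℕ) :
    α ∈ fcn M u ↔ α ∈ M ∧ ∀ β ∈ M, dot u α ≤ dot u β := by
  classical
  unfold fcn
  rw [Finset.mem_filter]

theorem cnt (hcid : CidStmt) : CntStmt := by
  classical
  intro σ _ _ K _ _ c δ hδ hδc F I L hFL hsm u e hu hle hex
  have : CharZero K := charZero_of_injective_algebraMap (algebraMap ℂ K).injective
  set S : Finset (σ →₀ ℕ) :=
    (Mp F.support I L).filter fun α => ∑ i, u i * ((α i : ℕ) : ℤ) = e with hS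
  have memMp : ∀ α, α ∈ Mp F.support I L ↔ α ∈ F.support ∨ ∃ i ∈ I, Finsupp.single i L = α := by
    exact mem_Mp F.support I L
  have hdL : ∀ i ∈ I, ∑ j, u j * (((Finsupp.single i L : σ →₀ ℕ) j : ℕ) : ℤ) = u i * L := by
    intro i _
    rw [Finset.sum_eq_single i]
    · rw [Finsupp.single_eq_same]
    · intro j _ hj
      rw [Finsupp.single_eq_of_ne hj]
      simp
    · intro h
      exact absurd (Finset.mem_univ i) h
  by_cases hcase : ∃ i ∈ I, (Finsupp.single i L : σ →₀ ℕ) ∈ S
  · -- Case 1
    obtain ⟨i, hi, hiS⟩ := hcase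
    set G : MvPolynomial σ K := prt (fpr F I c L) S with hG
    have h1 : cfD (δ i) G = MvPolynomial.X i ^ L := by
      ext β
      rw [coeff_cfD, hG, coeff_prt, MvPolynomial.coeff_X_pow]
      by_cases hβ : β ∈ S
      · rw [if_pos hβ, coeff_fpr, map_add, hδ, zero_add, map_sum]
        have h2 : ∀ j ∈ I, δ i (if Finsupp.single j L = β then c j else 0) =
            if j = i then (if Finsupp.single i L = β then 1 else 0) else 0 := by
          intro j _
          by_cases hji : j = i
          · subst hji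
            rw [if_pos rfl]
            split_ifs
            · rw [hδc, if_pos rfl]
            · rw [map_zero]
          · rw [if_neg hji]
            split_ifs
            · rw [hδc, if_neg (Ne.symm hji)]
            · rw [map_zero]
        rw [Finset.sum_congr rfl h2, Finset.sum_ite_eq', if_pos hi]
      · rw [if_neg hβ, map_zero, if_neg]
        intro h
        exact hβ (h ▸ hiS)
    have h2 := hcid σ K (δ i) G
    rw [h1] at h2
    have h3 := Ideal.mem_radical_of_pow_mem h2
    show ∏ l, MvPolynomial.X l ∈ _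
    obtain ⟨q, hq⟩ := Finset.dvd_prod_of_mem (fun l => (MvPolynomial.X l : MvPolynomial σ K))
      (Finset.mem_univ i)
    rw [hq]
    exact Ideal.mul_mem_right _ _ h3
  · -- Case 2
    push Not at hcase
    have hSM : ∀ α ∈ S, α ∈ F.support := by
      intro α hα
      rcases (memMp α).mp (Finset.mem_filter.mp hα).1 with h | ⟨i, hi, rfl⟩
      · exact h
      · exact absurd hα (hcase i hi)
    have hlt : ∀ i ∈ I, e < u i * L := by
      intro i hi
      have hm : (Finsupp.single i L : σ →₀ ℕ) ∈ Mp F.support I L := (memMp _).mpr (Or.inr ⟨i, hi, rfl⟩)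
      have h1 := hle _ hm
      rw [hdL i hi] at h1
      refine lt_of_le_of_ne h1 fun h2 => hcase i hi ?_
      rw [hS, Finset.mem_filter]
      exact ⟨hm, by rw [hdL i hi, h2]⟩
    obtain ⟨α₀, hα₀, hα₀e⟩ := hex
    have hα₀S : α₀ ∈ S := Finset.mem_filter.mpr ⟨hα₀, hα₀e⟩
    have hα₀M := hSM α₀ hα₀S
    have hsumI : ∀ α : σ →₀ ℕ, ∑ i, u i * ((α i : ℕ) : ℤ) = ∑ i ∈ I, u i * ((α i : ℕ) : ℤ) := by
      intro α
      symm
      apply Finset.sum_subset (Finset.subset_univ _)
      intro i _ hi
      rw [hu i hi, zero_mul]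
    have hupos : ∀ i, 0 ≤ u i := by
      by_contra hneg
      push Not at hneg
      obtain ⟨i₁, hi₁⟩ := hneg
      have hi₁I : i₁ ∈ I := by
        by_contra h
        rw [hu i₁ h] at hi₁
        exact lt_irrefl _ hi₁
      obtain ⟨i₀, hi₀, hmin⟩ := Finset.exists_min_image I u ⟨i₁, hi₁I⟩
      have h0 : u i₀ < 0 := (hmin i₁ hi₁I).trans_lt hi₁
      have h1 : u i₀ * ∑ i ∈ I, ((α₀ i : ℕ) : ℤ) ≤ e := by
        rw [← hα₀e, hsumI, Finset.mul_sum]
        exact Finset.sum_le_sum fun i hi => mul_le_mul_of_nonneg_right (hmin i hi)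
          (Int.natCast_nonneg _)
      have h2 : (∑ i ∈ I, ((α₀ i : ℕ) : ℤ)) ≤ L := by
        have := (hFL α₀ hα₀M).le
        exact_mod_cast this
      have h3 : u i₀ * L ≤ u i₀ * ∑ i ∈ I, ((α₀ i : ℕ) : ℤ) :=
        mul_le_mul_of_nonpos_left h2 h0.le
      have h4 := hlt i₀ hi₀
      linarith
    set w : σ → ℕ := fun i => (u i).toNat with hw
    have hdot : ∀ α : σ →₀ ℕ, ((dot w α : ℕ) : ℤ) = ∑ i, u i * ((α i : ℕ) : ℤ) := by
      intro α
      unfold dot
      rw [Nat.cast_sum]
      refine Finset.sum_congr rfl fun i _ => ?_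
      rw [Nat.cast_mul, hw]
      simp only [Int.toNat_of_nonneg (hupos i), Nat.cast_id]
    have hSf : S = fcn F.support w := by
      ext α
      rw [mem_fcn]
      constructor
      · intro hα
        refine ⟨hSM α hα, fun β hβ => ?_⟩
        have h1 := (Finset.mem_filter.mp hα).2
        have h2 := hle β ((memMp β).mpr (Or.inl hβ))
        have h3 : ((dot w α : ℕ) : ℤ) ≤ ((dot w β : ℕ) : ℤ) := by
          rw [hdot, hdot, h1]
          exact h2
        exact_mod_cast h3
      · rintro ⟨hα, hmin⟩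
        have hm : α ∈ Mp F.support I L := (memMp α).mpr (Or.inl hα)
        refine Finset.mem_filter.mpr ⟨hm, ?_⟩
        have h1 : ((dot w α : ℕ) : ℤ) ≤ ((dot w α₀ : ℕ) : ℤ) := by
          exact_mod_cast hmin α₀ hα₀M
        rw [hdot, hdot, hα₀e] at h1
        exact le_antisymm h1 (hle α hm)
    have hprt : prt (fpr F I c L) S = MvPolynomial.map (algebraMap ℂ K) (prt F S) := by
      ext β
      rw [coeff_prt, MvPolynomial.coeff_map, coeff_prt]
      by_cases hβ : β ∈ S
      · rw [if_pos hβ, if_pos hβ, coeff_fpr]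
        have hz : ∑ i ∈ I, (if Finsupp.single i L = β then c i else 0) = 0 := by
          refine Finset.sum_eq_zero fun i hi => ?_
          rw [if_neg]
          intro h
          have h1 := hFL β (hSM β hβ)
          rw [← h] at h1
          have h2 : ∑ j ∈ I, (Finsupp.single i L : σ →₀ ℕ) j = L := by
            rw [Finset.sum_eq_single i]
            · rw [Finsupp.single_eq_same]
            · intro j _ hj
              rw [Finsupp.single_eq_of_ne hj]
            · intro h
              exact absurd hi h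
          rw [h2] at h1
          exact lt_irrefl _ h1
        rw [hz, add_zero]
      · rw [if_neg hβ, if_neg hβ, map_zero]
    rw [hprt, hSf]
    exact smooth_map (hsm w)

end Pool.Agent.NDR.H19
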