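import Pool.Agent.NDR.StmtsL

/-!
Squad NDL (MP_b48657_ag), row LEX (helper19): the dual point and interior primal points.
-/

set_option autoImplicit false

open Finset

namespace Pool.Agent.NDR.H19

variable {σ : Type}

/-- extension by zero -/
noncomputable def ext (I : Finset σ) (z : I → ℚ) : σ → ℚ := by
  classical
  exact fun i => if h : i ∈ I then z ⟨i, h⟩ else 0

lemma ext_mem (I : Finset σ) (z : I → ℚ) (i : I) : ext I z i = z i := by
  unfold ext
  rw [dif_pos i.2]

lemma ext_nmem (I : Finset σ) (z : I → ℚ) {i : σ} (h : i ∉ I) : ext I z i = 0 := by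
  unfold ext
  rw [dif_neg h]

lemma sum_off [Fintype σ] (I : Finset σ) (y : σ → ℚ) (hy : Off I y) (f : σ → ℚ) :
    ∑ i, y i * f i = ∑ i : I, y i * f i := by
  rw [Finset.sum_coe_sort I (fun i => y i * f i)]
  symm
  apply Finset.sum_subset (Finset.subset_univ _)
  intro i _ hi
  rw [hy i hi, zero_mul]

lemma off_ext (I : Finset σ) (z : I → ℚ) : Off I (ext I z) := fun _ hi => ext_nmem I z hi

/-- the form of the duality theorem used here: the additional constraint is `w ≤ g * ∑ y` -/
lemma wrap [Fintype σ] (hlpd : LpdStmt) (A : Finset (σ →₀ ℕ)) (I : Finset σ) (g w : ℚ) (c : σ → ℚ)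
    (y₀ : σ → ℚ) (l₀ : (σ →₀ ℕ) → ℚ) (t₀ : ℚ) (h1 : Off I y₀) (h2 : ∀ i, 0 ≤ y₀ i)
    (h3 : ∀ a ∈ A, dq y₀ a ≤ 1) (h4 : w ≤ g * ∑ i, y₀ i) (h5 : ∀ a, 0 ≤ l₀ a) (h6 : 0 ≤ t₀)
    (h7 : ∀ i ∈ I, c i ≤ ∑ a ∈ A, l₀ a * (a i : ℚ) - t₀ * g) :
    ∃ (y : σ → ℚ) (l : (σ →₀ ℕ) → ℚ) (t : ℚ), Off I y ∧ (∀ i, 0 ≤ y i) ∧
      (∀ a ∈ A, dq y a ≤ 1) ∧ w ≤ g * ∑ i, y i ∧ (∀ a, 0 ≤ l a) ∧ 0 ≤ t ∧
      (∀ i ∈ I, c i ≤ ∑ a ∈ A, l a * (a i : ℚ) - t * g) ∧
      ∑ i, c i * y i = ∑ a ∈ A, l a - t * w := by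
  classical
  obtain ⟨y, l, q1, q2, q3, q4, q5⟩ := hlpd I (Option A)
    (fun k i => k.elim (-g) (fun a => ((a : σ →₀ ℕ) i : ℚ)))
    (fun k => k.elim (-w) (fun _ => 1)) (fun i => c i) (fun i => y₀ i)
    (fun k => k.elim t₀ (fun a => l₀ a)) (fun i => h2 i)
    (by
      rintro (_ | a)
      · have := sum_off I y₀ h1 (fun _ => 1)
        simp only [mul_one] at this
        simp only [Option.elim_none, ← Finset.mul_sum]
        rw [← this]
        linarith
      · have := sum_off I y₀ h1 (fun i => ((a : σ →₀ ℕ) i : ℚ))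
        have h8 := h3 a a.2
        unfold dq at h8
        rw [this] at h8
        simp only [Option.elim_some]
        refine le_trans (le_of_eq ?_) h8
        exact Finset.sum_congr rfl fun i _ => mul_comm _ _)
    (by
      rintro (_ | a)
      · exact h6
      · exact h5 a)
    (by
      intro i
      have := h7 i i.2
      rw [Fintype.sum_option]
      simp only [Option.elim_none, Option.elim_some]
      rw [Finset.sum_coe_sort A (fun a => l₀ a * (a (i : σ) : ℚ))]
      linarith)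
  refine ⟨ext I y, fun a => if h : a ∈ A then l (some ⟨a, h⟩) else 0, l none, off_ext I y, ?_, ?_,
    ?_, ?_, q3 none, ?_, ?_⟩
  · intro i
    by_cases hi : i ∈ I
    · rw [ext_mem I y ⟨i, hi⟩]; exact q1 _
    · rw [ext_nmem I y hi]
  · intro a ha
    have h8 := q2 (some ⟨a, ha⟩)
    simp only [Option.elim_some] at h8
    unfold dq
    rw [sum_off I _ (off_ext I y)]
    refine le_trans (le_of_eq ?_) h8
    exact Finset.sum_congr rfl fun i _ => by rw [ext_mem, mul_comm]
  · have h8 := q2 none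
    simp only [Option.elim_none, ← Finset.mul_sum] at h8
    have := sum_off I _ (off_ext I y) (fun _ => 1)
    simp only [mul_one] at this
    rw [this]
    simp only [ext_mem]
    linarith
  · intro a
    dsimp only
    split_ifs with h
    · exact q3 _
    · exact le_rfl
  · intro i hi
    have h8 := q4 ⟨i, hi⟩
    rw [Fintype.sum_option] at h8
    simp only [Option.elim_none, Option.elim_some] at h8
    rw [← Finset.sum_coe_sort A (fun a => (if h : a ∈ A then l (some ⟨a, h⟩) else 0) * (a i : ℚ))]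
    have h9 : ∑ a : A, (if h : (a : σ →₀ ℕ) ∈ A then l (some ⟨a, h⟩) else 0) *
        ((a : σ →₀ ℕ) i : ℚ) = ∑ a : A, l (some a) * ((a : σ →₀ ℕ) i : ℚ) :=
      Finset.sum_congr rfl fun a _ => by rw [dif_pos a.2]
    rw [h9]
    linarith
  · rw [Fintype.sum_option] at q5
    simp only [Option.elim_none, Option.elim_some, mul_one] at q5
    rw [← Finset.sum_coe_sort A (fun a => (if h : a ∈ A then l (some ⟨a, h⟩) else 0))]
    have h9 : ∑ a : A, (if h : (a : σ →₀ ℕ) ∈ A then l (some ⟨a, h⟩) else 0) =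
        ∑ a : A, l (some a) := Finset.sum_congr rfl fun a _ => by rw [dif_pos a.2]
    rw [h9]
    have h10 := sum_off I _ (off_ext I y) c
    have h11 : ∑ i, c i * ext I y i = ∑ i : I, c i * y i := by
      have h12 : ∑ i, c i * ext I y i = ∑ i, ext I y i * c i :=
        Finset.sum_congr rfl fun i _ => mul_comm _ _
      rw [h12, h10]
      exact Finset.sum_congr rfl fun i _ => by rw [ext_mem, mul_comm]
    rw [h11]
    linarith

theorem lex (hlpd : LpdStmt) : LexStmt := by
  classical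
  intro σ _ A I hI
  -- STEP 1
  obtain ⟨y0, L0, t0, a1, a2, a3, -, a5, a6, a7, a8⟩ := wrap hlpd A I 0 0 (fun _ => 1) (fun _ => 0)
    (fun _ => 1) 0 (fun _ _ => rfl) (fun _ => le_rfl) (fun a _ => by simp [dq]) (by simp)
    (fun _ => zero_le_one) le_rfl (by
      intro i hi
      obtain ⟨a, ha, hai⟩ := hI i hi
      have h1 : (a i : ℚ) ≤ ∑ a ∈ A, (1 : ℚ) * (a i : ℚ) := by
        simp only [one_mul]
        exact Finset.single_le_sum (f := fun a : σ →₀ ℕ => (a i : ℚ))
          (fun b _ => Nat.cast_nonneg _) ha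
      have h2 : (1 : ℚ) ≤ a i := by
        exact_mod_cast Nat.one_le_iff_ne_zero.mpr hai
      simp only [mul_zero, sub_zero]
      exact h2.trans h1)
  simp only [mul_zero, sub_zero, one_mul] at a7 a8
  set v : ℚ := ∑ i, y0 i with hv
  have dqsum : ∀ (y : σ → ℚ) (L : (σ →₀ ℕ) → ℚ),
      ∑ i, y i * ∑ a ∈ A, L a * (a i : ℚ) = ∑ a ∈ A, L a * dq y a := by
    intro y L
    unfold dq
    simp only [Finset.mul_sum]
    rw [Finset.sum_comm]
    exact Finset.sum_congr rfl fun a _ => Finset.sum_congr rfl fun i _ => by ring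
  have wk : ∀ y : σ → ℚ, Off I y → (∀ i, 0 ≤ y i) → (∀ a ∈ A, dq y a ≤ 1) → ∑ i, y i ≤ v := by
    intro y b1 b2 b3
    calc ∑ i, y i ≤ ∑ i, y i * ∑ a ∈ A, L0 a * (a i : ℚ) := by
          refine Finset.sum_le_sum fun i _ => ?_
          by_cases hi : i ∈ I
          · nlinarith [a7 i hi, b2 i]
          · rw [b1 i hi, zero_mul]
      _ = ∑ a ∈ A, L0 a * dq y a := dqsum y L0
      _ ≤ ∑ a ∈ A, L0 a := by
          refine Finset.sum_le_sum fun a ha => ?_
          nlinarith [a5 a, b3 a ha]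
      _ = v := a8.symm
  -- STEP 2
  set s : σ → ℚ := fun i => ∑ a ∈ A, (a i : ℚ) with hs
  have ssum : ∀ y : σ → ℚ, ∑ i, s i * y i = ∑ a ∈ A, dq y a := by
    intro y
    have := dqsum y (fun _ => 1)
    simp only [one_mul] at this
    rw [← this]
    exact Finset.sum_congr rfl fun i _ => mul_comm _ _
  obtain ⟨y1, L1, θ, b1, b2, b3, b4, b5, b6, b7, b8⟩ := wrap hlpd A I 1 v (fun i => - s i) y0
    (fun _ => 0) 0 a1 a2 a3 (by rw [one_mul]) (fun _ => le_rfl) le_rfl (by
      intro i _
      have : 0 ≤ s i := Finset.sum_nonneg fun a _ => Nat.cast_nonneg _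
      simp only [zero_mul, Finset.sum_const_zero, sub_zero]
      linarith)
  rw [one_mul] at b4
  simp only [mul_one] at b7
  have hv1 : ∑ i, y1 i = v := le_antisymm (wk y1 b1 b2 b3) b4
  set S1 : ℚ := ∑ a ∈ A, dq y1 a with hS1
  have b9 : ∑ a ∈ A, L1 a = θ * v - S1 := by
    have h1 : ∑ i, -s i * y1 i = - S1 := by
      rw [hS1, ← ssum y1, ← Finset.sum_neg_distrib]
      exact Finset.sum_congr rfl fun i _ => by ring
    rw [h1] at b8
    linarith
  -- the point with the largest support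
  let Y : Set (σ → ℚ) := {y | Off I y ∧ (∀ i, 0 ≤ y i) ∧ (∀ a ∈ A, dq y a ≤ 1) ∧
    ∑ i, y i = v ∧ ∑ a ∈ A, dq y a = S1}
  let sp : (σ → ℚ) → Finset σ := fun y => univ.filter fun i => 0 < y i
  obtain ⟨_, ⟨y, hyY, rfl⟩, hmax⟩ := Set.exists_max_image (sp '' Y) Finset.card (Set.toFinite _)
    ⟨_, y1, ⟨b1, b2, b3, hv1, rfl⟩, rfl⟩
  obtain ⟨c1, c2, c3, c4, c5⟩ := hyY
  refine ⟨y, ⟨c1, c2, c3, ?_⟩, ?_⟩
  · intro y' d1 d2 d3 d4 d5 i hi
    by_contra hcon
    have hyi : y i = 0 := le_antisymm (not_lt.mp hcon) (c2 i)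
    have hz : (fun i => (y i + y' i) / 2) ∈ Y := by
      have hdq : ∀ a, dq (fun i => (y i + y' i) / 2) a = (dq y a + dq y' a) / 2 := by
        intro a
        unfold dq
        rw [← Finset.sum_add_distrib, Finset.sum_div]
        exact Finset.sum_congr rfl fun i _ => by ring
      refine ⟨?_, ?_, ?_, ?_, ?_⟩
      · intro j hj
        show (y j + y' j) / 2 = 0
        rw [c1 j hj, d1 j hj]
        norm_num
      · intro j
        show 0 ≤ (y j + y' j) / 2
        linarith [c2 j, d2 j]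
      · intro a ha
        rw [hdq]
        linarith [c3 a ha, d3 a ha]
      · rw [← Finset.sum_div, Finset.sum_add_distrib, d4, c4]
        ring
      · simp only [hdq]
        rw [← Finset.sum_div, Finset.sum_add_distrib, d5, c5]
        ring
    have h1 := hmax _ ⟨_, hz, rfl⟩
    have h2 : sp y ⊂ sp (fun i => (y i + y' i) / 2) := by
      rw [Finset.ssubset_iff_of_subset]
      · refine ⟨i, ?_, ?_⟩
        · simp only [sp, Finset.mem_filter, Finset.mem_univ, true_and]
          rw [hyi]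
          linarith
        · simp only [sp, Finset.mem_filter, Finset.mem_univ, true_and]
          exact hcon
      · intro j hj
        simp only [sp, Finset.mem_filter, Finset.mem_univ, true_and] at hj ⊢
        linarith [d2 j]
    exact absurd (Finset.card_lt_card h2) (not_lt.mpr h1)
  · intro γ hγ
    set n : ℚ := (A.card : ℚ) with hn
    have hn0 : 0 ≤ n := Nat.cast_nonneg _
    set ε : ℚ := min (1 / (θ + 1)) (γ / (n + 1)) with hε
    have hε0 : 0 < ε := lt_min (by positivity) (by positivity)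
    have hε1 : ε * θ ≤ 1 := by
      have h1 : ε ≤ 1 / (θ + 1) := min_le_left _ _
      rw [le_div_iff₀ (by positivity)] at h1
      linarith
    have hε2 : ε * n < γ := by
      have h1 : ε ≤ γ / (n + 1) := min_le_right _ _
      rw [le_div_iff₀ (by positivity)] at h1
      linarith
    have hS0 : 0 ≤ S1 := by
      rw [← c5]
      exact Finset.sum_nonneg fun a _ => Finset.sum_nonneg fun i _ =>
        mul_nonneg (c2 i) (Nat.cast_nonneg _)
    set μ : (σ →₀ ℕ) → ℚ := fun a => ε + (1 - ε * θ) * L0 a + ε * L1 a with hμ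
    have hμpos : ∀ a, 0 < μ a := by
      intro a
      have h1 : 0 ≤ (1 - ε * θ) * L0 a := mul_nonneg (by linarith) (a5 a)
      have h2 : 0 ≤ ε * L1 a := mul_nonneg hε0.le (b5 a)
      simp only [hμ]
      linarith
    have hcmb : ∀ i, cmb A μ i = ε * s i + (1 - ε * θ) * ∑ a ∈ A, L0 a * (a i : ℚ) +
        ε * ∑ a ∈ A, L1 a * (a i : ℚ) := by
      intro i
      simp only [cmb, hμ, hs, Finset.mul_sum]
      rw [← Finset.sum_add_distrib, ← Finset.sum_add_distrib]
      exact Finset.sum_congr rfl fun a _ => by ring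
    have hge : ∀ i ∈ I, 1 ≤ cmb A μ i := by
      intro i hi
      rw [hcmb]
      have h1 : (1 - ε * θ) * 1 ≤ (1 - ε * θ) * ∑ a ∈ A, L0 a * (a i : ℚ) :=
        mul_le_mul_of_nonneg_left (a7 i hi) (by linarith)
      have h2 : ε * (θ - s i) ≤ ε * ∑ a ∈ A, L1 a * (a i : ℚ) := by
        refine mul_le_mul_of_nonneg_left ?_ hε0.le
        linarith [b7 i hi]
      linarith
    have hsum : ∑ a ∈ A, μ a = v + ε * (n - S1) := by
      simp only [hμ]
      rw [Finset.sum_add_distrib, Finset.sum_add_distrib, ← Finset.mul_sum, ← Finset.mul_sum, ← a8,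
        b9, Finset.sum_const, nsmul_eq_mul]
      ring
    refine ⟨μ, fun a _ => hμpos a, hge, ?_, ?_⟩
    · -- complementary slackness
      have h1 : ∑ i, y i * (cmb A μ i - 1) ≤ 0 := by
        have h2 : ∑ i, y i * (cmb A μ i - 1) = ∑ a ∈ A, μ a * dq y a - v := by
          rw [← dqsum y μ, ← c4, ← Finset.sum_sub_distrib]
          exact Finset.sum_congr rfl fun i _ => by rw [cmb]; ring
        have h3 : ∑ a ∈ A, μ a * dq y a ≤ ε * S1 + (1 - ε * θ) * ∑ a ∈ A, L0 a +
            ε * ∑ a ∈ A, L1 a := by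
          rw [← c5]
          simp only [Finset.mul_sum]
          rw [← Finset.sum_add_distrib, ← Finset.sum_add_distrib]
          refine Finset.sum_le_sum fun a ha => ?_
          have e1 : (1 - ε * θ) * L0 a * dq y a ≤ (1 - ε * θ) * L0 a * 1 :=
            mul_le_mul_of_nonneg_left (c3 a ha) (mul_nonneg (by linarith) (a5 a))
          have e2 : ε * L1 a * dq y a ≤ ε * L1 a * 1 :=
            mul_le_mul_of_nonneg_left (c3 a ha) (mul_nonneg hε0.le (b5 a))
          simp only [hμ]
          linarith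
        rw [h2]
        rw [← a8, b9] at h3
        linarith
      have h4 : ∀ i ∈ (univ : Finset σ), 0 ≤ y i * (cmb A μ i - 1) := by
        intro i _
        by_cases hi : i ∈ I
        · exact mul_nonneg (c2 i) (by linarith [hge i hi])
        · rw [c1 i hi, zero_mul]
      have h5 := (Finset.sum_eq_zero_iff_of_nonneg h4).mp
        (le_antisymm h1 (Finset.sum_nonneg h4))
      intro i hi
      have h6 := h5 i (Finset.mem_univ i)
      rcases mul_eq_zero.mp h6 with h7 | h7
      · exact absurd h7 hi.ne'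
      · linarith
    · rw [hsum, c4]
      have : ε * (n - S1) ≤ ε * n := by
        have := mul_nonneg hε0.le hS0
        linarith
      linarith

end Pool.Agent.NDR.H19
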